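import Pool.Agent.Y271.RO.Stm
import Pool.Agent.Y604.NK.MEAS

/-!
# Project RO: Cauchy transforms of `conj w x μ` are locally integrable; Fubini
-/

set_option autoImplicit false

namespace Pool.Agent.Y108.RO

open MeasureTheory Set Metric Filter Topology
open scoped InnerProductSpace ENNReal NNReal ComplexConjugate ContDiff
open Pool.Agent.Y283.NK (ct ea)
open Pool.Agent.Y271.RO
open Pool.Agent.Y604.NK (meas_ct meas_coe meas_ea meas_ea2 ea_ball)

variable {S : Type} [MeasurableSpace S] {μ : Measure S}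

theorem enorm_inv_le (a : ℂ) : ‖a⁻¹‖ₑ ≤ ‖a‖ₑ⁻¹ := by
  by_cases h : a = 0
  · simp [h]
  · rw [enorm_inv h]

theorem mul_le_sq (a b : ℝ≥0∞) : a * b ≤ a ^ 2 + b ^ 2 := by
  rcases le_total a b with h | h
  · calc a * b ≤ b * b := by gcongr
      _ = b ^ 2 := (sq b).symm
      _ ≤ _ := le_add_self
  · calc a * b ≤ a * a := by gcongr
      _ = a ^ 2 := (sq a).symm
      _ ≤ _ := le_self_add

theorem int_le {φ : S → ℂ} (hφ : Measurable φ) (w x : Lp ℂ 2 μ) (z : ℂ) :
    ∫⁻ s, ‖conj (w s) * x s * (z - φ s)⁻¹‖ₑ ∂μ ≤ ea φ w z + ea φ x z := by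
  unfold ea
  have hmm : Measurable (fun s => ‖w s‖ₑ ^ 2 * ‖z - φ s‖ₑ⁻¹) :=
    ((meas_coe w).enorm.pow_const 2).mul ((measurable_const.sub hφ).enorm.inv)
  rw [← lintegral_add_left hmm]
  refine lintegral_mono fun s => ?_
  rw [enorm_mul, enorm_mul, ← add_mul]
  refine mul_le_mul' ?_ (enorm_inv_le _)
  have h : ‖conj (w s)‖ₑ = ‖w s‖ₑ := by
    rw [← ofReal_norm, ← ofReal_norm, RCLike.norm_conj]
  rw [h]
  exact mul_le_sq _ _

theorem meas_F {φ : S → ℂ} (hφ : Measurable φ) (w x : Lp ℂ 2 μ) {g : ℂ → ℂ} (hg : Measurable g) :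
    Measurable (fun p : ℂ × S => g p.1 * (conj (w p.2) * x p.2 * (p.1 - φ p.2)⁻¹)) := by
  have h0 : Measurable (fun p : ℂ × S => w p.2) := (meas_coe w).comp measurable_snd
  have h1 : Measurable (fun p : ℂ × S => x p.2) := (meas_coe x).comp measurable_snd
  have h2 : Measurable (fun p : ℂ × S => p.1 - φ p.2) :=
    measurable_fst.sub (hφ.comp measurable_snd)
  exact (hg.comp measurable_fst).mul
    (((Complex.continuous_conj.measurable.comp h0).mul h1).mul h2.inv)

theorem main : S_CTG := by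
  intro S _ μ _ φ hφ w x
  have hm := meas_ct hφ w x
  have hball : ∀ R : ℝ, ∫⁻ z in ball (0:ℂ) R, (ea φ w z + ea φ x z) < ⊤ := by
    intro R
    obtain ⟨C, hC⟩ := Pool.Agent.Y891.NK.main_area R
    rw [lintegral_add_left (meas_ea hφ w)]
    exact ENNReal.add_lt_top.2
      ⟨(ea_ball hφ w R C hC).trans_lt (ENNReal.mul_lt_top ENNReal.coe_lt_top ENNReal.ofReal_lt_top),
        (ea_ball hφ x R C hC).trans_lt (ENNReal.mul_lt_top ENNReal.coe_lt_top ENNReal.ofReal_lt_top)⟩
  have hon : ∀ R : ℝ, IntegrableOn (ct φ w x) (ball 0 R) := by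
    intro R
    refine ⟨hm.aestronglyMeasurable, ?_⟩
    refine (lintegral_mono fun z => ?_).trans_lt (hball R)
    exact (enorm_integral_le_lintegral_enorm _).trans (int_le hφ w x z)
  refine ⟨hm, ?_, ?_⟩
  · rw [locallyIntegrable_iff]
    intro K hK
    obtain ⟨R, hR⟩ := hK.isBounded.subset_ball 0
    exact (hon R).mono_set hR
  · intro c r M g hg
    have hsub : ball c r ⊆ ball 0 (‖c‖ + r) := by
      refine ball_subset_ball' ?_
      rw [dist_zero_right]
      linarith
    have hz : ∀ z, z ∉ ball (0:ℂ) (‖c‖ + r) → g z = 0 := fun z h => hg.supp z fun h' => h (hsub h')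
    constructor
    · have h1 : IntegrableOn (fun z => g z * ct φ w x z) (ball 0 (‖c‖ + r)) :=
        (hon _).bdd_mul (c := M) hg.meas.aestronglyMeasurable (ae_of_all _ hg.bd)
      exact h1.integrable_of_forall_notMem_eq_zero fun z h => by rw [hz z h, zero_mul]
    · have hmF := meas_F hφ w x hg.meas
      have hF : Integrable (fun p : ℂ × S => g p.1 * (conj (w p.2) * x p.2 * (p.1 - φ p.2)⁻¹))
          (volume.prod μ) := by
        refine ⟨hmF.aestronglyMeasurable, ?_⟩
        show ∫⁻ p, ‖g p.1 * (conj (w p.2) * x p.2 * (p.1 - φ p.2)⁻¹)‖ₑ ∂(volume.prod μ) < ⊤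
        rw [lintegral_prod _ hmF.enorm.aemeasurable]
        have hle : ∀ z : ℂ, ∫⁻ s, ‖g z * (conj (w s) * x s * (z - φ s)⁻¹)‖ₑ ∂μ ≤
            (ball (0:ℂ) (‖c‖ + r)).indicator
              (fun z => ENNReal.ofReal M * (ea φ w z + ea φ x z)) z := by
          intro z
          by_cases h : z ∈ ball (0:ℂ) (‖c‖ + r)
          · rw [indicator_of_mem h]
            simp only [enorm_mul (g z)]
            rw [lintegral_const_mul' _ _ enorm_ne_top]
            refine mul_le_mul' ?_ (int_le hφ w x z)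
            rw [← ofReal_norm]
            exact ENNReal.ofReal_le_ofReal (hg.bd z)
          · rw [indicator_of_notMem h, hz z h]
            simp
        refine (lintegral_mono hle).trans_lt ?_
        rw [lintegral_indicator measurableSet_ball, lintegral_const_mul' _ _ ENNReal.ofReal_ne_top]
        exact ENNReal.mul_lt_top ENNReal.ofReal_lt_top (hball _)
      have h2 := integral_integral_swap
        (f := fun (z : ℂ) (s : S) => g z * (conj (w s) * x s * (z - φ s)⁻¹)) hF
      have e1 : ∀ z : ℂ, ∫ s, g z * (conj (w s) * x s * (z - φ s)⁻¹) ∂μ = g z * ct φ w x z := by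
        intro z
        rw [integral_const_mul]
        rfl
      have e2 : ∀ s : S, ∫ z, g z * (conj (w s) * x s * (z - φ s)⁻¹) =
          conj (w s) * (ht g (φ s) * x s) := by
        intro s
        have : ∀ z : ℂ, g z * (conj (w s) * x s * (z - φ s)⁻¹) =
            (conj (w s) * x s) * (g z * (z - φ s)⁻¹) := fun z => by ring
        simp only [this]
        rw [integral_const_mul]
        unfold ht
        ring
      simp only [e1, e2] at h2
      exact h2.symm

end Pool.Agent.Y108.RO
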